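import Pool.Agent.H27.O1.Par
import Pool.Agent.H38.O1.N3

set_option autoImplicit false

/-!
`th(a, b)` fixes `b` (and `a`), from the facts (A) and (B) of helpers 77, 93 (notes 6883, 6890).
-/

namespace ALoop

open Equiv

/-- the commutator trick (helpers 61, 79) -/
theorem a12 {M : Type*} [Group M] {l r l' r' : M} (h1 : l * r = r * l) (h2 : l * l' = l' * l)
    (h3 : r * r' = r' * r) (h4 : l' * r' = r' * l')
    (h5 : (l * r) * (l' * r') = (l' * r') * (l * r)) :
    (l * r⁻¹) * (l' * r'⁻¹) = (l' * r'⁻¹) * (l * r⁻¹) := by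
  obtain ⟨c, hc⟩ : ∃ c, c = l * r' * l⁻¹ * r'⁻¹ := ⟨_, rfl⟩
  obtain ⟨d, hd⟩ : ∃ d, d = r * l' * r⁻¹ * l'⁻¹ := ⟨_, rfl⟩
  have C1 : Commute l r := h1
  have C2 : Commute l l' := h2
  have C3 : Commute r r' := h3
  have C4 : Commute l' r' := h4
  have cl' : Commute c l' := by
    rw [hc]
    exact ((C2.mul_left C4.symm).mul_left C2.inv_left).mul_left C4.symm.inv_left
  have cr : Commute c r := by
    rw [hc]
    exact ((C1.mul_left C3.symm).mul_left C1.inv_left).mul_left C3.symm.inv_left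
  have dl : Commute d l := by
    rw [hd]
    exact ((C1.symm.mul_left C2.symm).mul_left C1.symm.inv_left).mul_left C2.symm.inv_left
  have dr' : Commute d r' := by
    rw [hd]
    exact ((C3.mul_left C4).mul_left C3.inv_left).mul_left C4.inv_left
  have e1 : l * r' = c * (r' * l) := by rw [hc]; group
  have e2 : r * l' = d * (l' * r) := by rw [hd]; group
  -- `d * c = 1`
  have e3 : d * c = 1 := by
    have h6 : (l * r) * (l' * r') = d * (l' * (l * r') * r) := by
      calc (l * r) * (l' * r') = l * (r * l') * r' := by group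
        _ = (l * d) * l' * (r * r') := by rw [e2]; group
        _ = (d * l) * l' * (r' * r) := by rw [dl.eq, h3]
        _ = d * ((l * l') * r' * r) := by group
        _ = d * (l' * (l * r') * r) := by rw [h2]; group
    have h7 : (l' * r') * (l * r) = l' * (r' * l) * r := by group
    rw [h6, h7, e1] at h5
    have h8 : d * (l' * (c * (r' * l)) * r) = (d * c) * (l' * (r' * l) * r) := by
      calc d * (l' * (c * (r' * l)) * r) = d * (l' * c) * ((r' * l) * r) := by group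
        _ = d * (c * l') * ((r' * l) * r) := by rw [cl'.eq]
        _ = _ := by group
    rw [h8] at h5
    exact mul_eq_right.1 h5
  have hdc : d = c⁻¹ := eq_inv_of_mul_eq_one_left e3
  have cl : Commute c l := by
    have h6 := dl
    rw [hdc] at h6
    exact (Commute.inv_left_iff).1 h6
  have cr' : Commute c r' := by
    have h6 := dr'
    rw [hdc] at h6
    exact (Commute.inv_left_iff).1 h6
  -- `l * r'⁻¹` and `r⁻¹ * l'`
  have f1 : r⁻¹ * l' = c * (l' * r⁻¹) := by
    have h6 : c * (r * l') = l' * r := by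
      rw [e2, hdc]; group
    calc r⁻¹ * l' = r⁻¹ * (l' * r) * r⁻¹ := by group
      _ = r⁻¹ * (c * (r * l')) * r⁻¹ := by rw [h6]
      _ = (r⁻¹ * c) * r * l' * r⁻¹ := by group
      _ = (c * r⁻¹) * r * l' * r⁻¹ := by rw [cr.inv_right.eq]
      _ = c * (l' * r⁻¹) := by group
  have f2 : r'⁻¹ * l = c * (l * r'⁻¹) := by
    calc r'⁻¹ * l = r'⁻¹ * (l * r') * r'⁻¹ := by group
      _ = (r'⁻¹ * c) * r' * l * r'⁻¹ := by rw [e1]; group
      _ = (c * r'⁻¹) * r' * l * r'⁻¹ := by rw [cr'.inv_right.eq]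
      _ = c * (l * r'⁻¹) := by group
  calc (l * r⁻¹) * (l' * r'⁻¹) = l * (r⁻¹ * l') * r'⁻¹ := by group
    _ = (l * c) * l' * (r⁻¹ * r'⁻¹) := by rw [f1]; group
    _ = (c * l) * l' * (r'⁻¹ * r⁻¹) := by
        rw [cl.eq, (C3.inv_left.inv_right).eq]
    _ = c * ((l * l') * (r'⁻¹ * r⁻¹)) := by group
    _ = c * ((l' * l) * (r'⁻¹ * r⁻¹)) := by rw [h2]
    _ = (c * l') * (l * r'⁻¹) * r⁻¹ := by group
    _ = (l' * c) * (l * r'⁻¹) * r⁻¹ := by rw [cl'.eq]
    _ = l' * (c * (l * r'⁻¹)) * r⁻¹ := by group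
    _ = l' * (r'⁻¹ * l) * r⁻¹ := by rw [f2]
    _ = _ := by group

variable {Q : Type*} {G : Subgroup (Perm Q)} {L : Q → Perm Q} {J : Perm Q} {e : Q}

namespace AL

/-- K7 at `(a, b)`, from the facts (A), (B) at `(a, b)` -/
theorem K7_of [Finite Q] (h : AL G L J e) (hna : ¬ Assoc L) (hodd : Odd (Nat.card Q)) (a b : Q)
    {l : Perm Q} (hl : l = (L b)⁻¹ * L (Th L J a b b))
    (hB1 : l * (J * l * J) = (J * l * J) * l)
    (hB2 : ∀ q, l * (D L J q * l * D L J q) = (D L J q * l * D L J q) * l)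
    (hB3 : l * (J * l * J) = (Tx L J b)⁻¹ * Tx L J (Th L J a b b))
    (hB4 : l * (J * l * J)⁻¹ = D L J ((L b)⁻¹ (Th L J a b b)) * J)
    (hA : ∀ t, (Tx L J (Th L J a b b) * (Tx L J b)⁻¹) *
        (D L J t * (Tx L J (Th L J a b b) * (Tx L J b)⁻¹) * D L J t) =
      (D L J t * (Tx L J (Th L J a b b) * (Tx L J b)⁻¹) * D L J t) *
        (Tx L J (Th L J a b b) * (Tx L J b)⁻¹)) :
    Th L J a b b = b := by
  have hJJ := h.JJ1
  obtain ⟨r, hr⟩ : ∃ r, r = J * l * J := ⟨_, rfl⟩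
  rw [← hr] at hB1 hB3 hB4
  obtain ⟨b', hb'⟩ : ∃ b', b' = Th L J a b b := ⟨_, rfl⟩
  rw [← hb'] at hB3 hB4 hA hl ⊢
  obtain ⟨T, hT⟩ : ∃ T, T = Tx L J b := ⟨_, rfl⟩
  obtain ⟨T', hT'⟩ : ∃ T', T' = Tx L J b' := ⟨_, rfl⟩
  rw [← hT, ← hT'] at hB3 hA
  have hTG : T ∈ G := by rw [hT]; exact h.al0.Tx_mem b
  have hlG : l ∈ G := by
    rw [hl]; exact G.mul_mem (G.inv_mem (h.memL _)) (h.memL _)
  have hrG : r ∈ G := by rw [hr]; exact h.JG _ hlG
  -- `r ~ D q r D q`
  have hB2r : ∀ q, r * (D L J q * r * D L J q) = (D L J q * r * D L J q) * r := by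
    intro q
    have h1 := hB2 (J q)
    have h2 : D L J q = J * D L J (J q) * J := by
      have := h.D_J (J q)
      rw [h.JJ] at this
      exact this.symm
    obtain ⟨F, hF⟩ : ∃ F, F = D L J (J q) := ⟨_, rfl⟩
    rw [← hF] at h1 h2
    rw [h2, hr]
    calc J * l * J * (J * F * J * (J * l * J) * (J * F * J)) =
        J * l * (J * J) * F * (J * J) * l * (J * J) * F * J := by group
      _ = J * (l * (F * l * F)) * J := by rw [hJJ]; group
      _ = J * (F * l * F * l) * J := by rw [h1]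
      _ = J * F * 1 * l * 1 * F * 1 * l * J := by group
      _ = J * F * (J * J) * l * (J * J) * F * (J * J) * l * J := by rw [hJJ]
      _ = _ := by group
  -- `l r ~ D q (l r) D q`
  have hB3c : ∀ q, (l * r) * (D L J q * (l * r) * D L J q) =
      (D L J q * (l * r) * D L J q) * (l * r) := by
    intro q
    have h1 := hA (T q)
    have h2 : T⁻¹ * D L J (T q) * T = D L J q := by
      have := h.D_conj (G.inv_mem hTG) (T q)
      rw [inv_inv] at this
      rw [this, inv_apply']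
    have h3 : D L J (T q) = T * D L J q * T⁻¹ := by rw [← h2]; group
    obtain ⟨F, hF⟩ : ∃ F, F = D L J q := ⟨_, rfl⟩
    rw [← hF] at h3
    rw [h3] at h1
    rw [hB3, ← hF]
    calc T⁻¹ * T' * (F * (T⁻¹ * T') * F) =
        T⁻¹ * (T' * T⁻¹ * (T * F * T⁻¹ * (T' * T⁻¹) * (T * F * T⁻¹))) * T := by group
      _ = T⁻¹ * (T * F * T⁻¹ * (T' * T⁻¹) * (T * F * T⁻¹) * (T' * T⁻¹)) * T := by rw [h1]
      _ = _ := by group
  obtain ⟨P, hP⟩ : ∃ P, P = l * r⁻¹ := ⟨_, rfl⟩
  have hPD : P = D L J ((L b)⁻¹ b') * J := by rw [hP]; exact hB4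
  have hcom : ∀ q, P * (D L J q * P * D L J q) = (D L J q * P * D L J q) * P := by
    intro q
    obtain ⟨F, hF⟩ : ∃ F, F = D L J q := ⟨_, rfl⟩
    have hFF : F * F = 1 := by rw [hF]; exact h.D_sq q
    have g1 := hB2 q
    have g2 := hB2r q
    have g3 := hB3c q
    rw [← hF] at g1 g2 g3 ⊢
    have i1 : F * (l * r) * F = (F * l * F) * (F * r * F) := by
      calc F * (l * r) * F = F * l * 1 * r * F := by group
        _ = F * l * (F * F) * r * F := by rw [hFF]
        _ = _ := by group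
    have i2 : F * (l * r⁻¹) * F = (F * l * F) * (F * r * F)⁻¹ := by
      have hFi : F⁻¹ = F := inv_eq_of_mul_eq_one_left hFF
      calc F * (l * r⁻¹) * F = F * l * 1 * r⁻¹ * F := by group
        _ = F * l * (F * F) * r⁻¹ * F := by rw [hFF]
        _ = (F * l * F) * (F⁻¹ * r⁻¹ * F⁻¹) := by rw [hFi]; group
        _ = _ := by group
    have i3 : (F * l * F) * (F * r * F) = (F * r * F) * (F * l * F) := by
      calc (F * l * F) * (F * r * F) = F * l * (F * F) * r * F := by group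
        _ = F * (l * r) * F := by rw [hFF]; group
        _ = F * r * 1 * l * F := by rw [hB1]; group
        _ = F * r * (F * F) * l * F := by rw [hFF]
        _ = _ := by group
    rw [i1] at g3
    have h1 := a12 hB1 g1 g2 i3 g3
    rw [hP, i2]
    exact h1
  obtain ⟨n, hn, hnd⟩ := h.odd_DD' hodd ((L b)⁻¹ b') e
  rw [h.D_e, ← hPD] at hnd
  have hPG : P ∈ G := by rw [hP]; exact G.mul_mem hlG (G.inv_mem hrG)
  have hJl : J * l * J = r := hr.symm
  have hJr : J * r * J = l := by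
    rw [hr]
    calc J * (J * l * J) * J = (J * J) * l * (J * J) := by group
      _ = l := by rw [hJJ]; group
  have hP1 : P = 1 := by
    refine h.close hna hPG hn hnd (r := e) ?_ hcom
    rw [h.D_e, hP]
    have h1 : J * r⁻¹ * J = l⁻¹ := by
      have h2 : (J * r * J)⁻¹ = J * r⁻¹ * J := by
        rw [mul_inv_rev, mul_inv_rev, h.Jinv]; group
      rw [← h2, hJr]
    calc J * (l * r⁻¹) * J = J * l * 1 * r⁻¹ * J := by group
      _ = J * l * (J * J) * r⁻¹ * J := by rw [hJJ]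
      _ = (J * l * J) * (J * r⁻¹ * J) := by group
      _ = r * l⁻¹ := by rw [hJl, h1]
      _ = (l * r⁻¹)⁻¹ := by group
  have h6 : D L J ((L b)⁻¹ b') = D L J e := by
    rw [h.D_e]
    calc D L J ((L b)⁻¹ b') = (D L J ((L b)⁻¹ b') * J) * J := by
          rw [mul_assoc, hJJ, mul_one]
      _ = J := by rw [← hPD, hP1, one_mul]
  have h7 := h.D_inj h6
  rw [Perm.inv_eq_iff_eq, h.Le] at h7
  exact h7

/-- the mirror: if `th(a, b)` fixes `b` for all `a`, `b` then it fixes `a` -/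
theorem K7_mirror (h : AL G L J e) (hK : ∀ a b, Th L J a b b = b) (a b : Q) :
    Th L J a b a = a := by
  have h0 := h.al0
  have h1 := hK (J b) (J a)
  rw [h0.Th_inv, Perm.inv_eq_iff_eq] at h1
  have h2 := h0.fixJ (h0.Th_mem a b) (h0.Th_e a b) h1.symm
  rwa [h.JJ] at h2

end AL

end ALoop
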