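import Pool.Agent.H4.FD.Kap
import Pool.Agent.H38.O2.Main

set_option autoImplicit false

/-!
Odd order: the inversion fixes only the identity (the argument of helper4's FD), so products of two
reflections have odd order.
-/

namespace ALoop

open Equiv

variable {Q : Type*} {G : Subgroup (Perm Q)} {L : Q → Perm Q} {J : Perm Q} {e : Q}

namespace AL

/-- if `Q` has odd order then `J` fixes only `e` -/
theorem odd_fix [Finite Q] (h : AL G L J e) (hodd : Odd (Nat.card Q)) : ∀ x, J x = x → x = e := by
  classical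
  intro x hx
  by_contra hne
  have hc : D L J x * D L J e = D L J e * D L J x := by
    have h1 := h.D_J x
    rw [hx] at h1
    rw [h.D_e]
    calc D L J x * J = (J * D L J x * J) * J := by rw [h1]
      _ = J * D L J x * (J * J) := by group
      _ = J * D L J x := by rw [h.JJ1, mul_one]
  have hw : D L J x * D L J e ∈ Z L J := ⟨x, e, hne, hc, rfl⟩
  obtain ⟨w, hwd⟩ : ∃ w, w = D L J x * D L J e := ⟨_, rfl⟩
  rw [← hwd] at hw
  have h2 : 2 ∣ Nat.card {q // w q = q} := by
    refine two_dvd_card (fun q => ⟨kp L J w q, h.kp_fix hw q.2⟩) ?_ ?_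
    · intro q; exact Subtype.ext (h.kp_kp hw q.2)
    · intro q hq
      exact h.kp_ne hw q.2 (congrArg Subtype.val hq)
  have := Fintype.ofFinite Q
  have : Fact (Nat.Prime 2) := ⟨Nat.prime_two⟩
  have hs : w ^ 2 ^ 1 = 1 := by
    rw [pow_one, pow_two]
    exact h.Z_sq hw
  have h3 := Equiv.Perm.card_compl_support_modEq (p := 2) hs
  have h4 : Nat.card {q // w q = q} = w.supportᶜ.card := by
    rw [Nat.card_eq_fintype_card, Fintype.card_subtype]
    congr 1
    ext q
    simp
  rw [← h4, ← Nat.card_eq_fintype_card] at h3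
  have h5 : Nat.card Q % 2 = 1 := Nat.odd_iff.1 hodd
  unfold Nat.ModEq at h3
  omega

/-- odd order: all products `D p * D q` have odd order -/
theorem odd_DD' [Finite Q] (h : AL G L J e) (hodd : Odd (Nat.card Q)) (p q : Q) :
    ∃ n : ℕ, Odd n ∧ (D L J p * D L J q) ^ n = 1 :=
  h.odd_DD (h.odd_fix hodd) p q

end AL

end ALoop
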